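import Mathlib

/-!
# Ranges of independent reversible Markov chains
-/

set_option autoImplicit false

namespace Pool.Agent.Q296.Ranges

open scoped BigOperators

/-- `P` is the transition matrix of a reversible, irreducible and aperiodic Markov chain on the
finite set `V`, with stationary distribution `π`. -/
structure IsChain {V : Type*} [Fintype V] [DecidableEq V] (P : Matrix V V ℝ) (π : V → ℝ) :
    Prop where
  nonneg : ∀ x y, 0 ≤ P x y
  row_sum : ∀ x, ∑ y, P x y = 1
  pi_pos : ∀ x, 0 < π x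
  pi_sum : ∑ x, π x = 1
  reversible : ∀ x y, π x * P x y = π y * P y x
  irreducible : ∀ x y, ∃ n : ℕ, 0 < (P ^ n) x y
  /-- the greatest common divisor of the possible return times to `x` is one -/
  aperiodic : ∀ x, ∀ d : ℕ, (∀ n : ℕ, 0 < n → 0 < (P ^ n) x x → d ∣ n) → d = 1

/-- The probability that the chain started from `π` follows the path `x 0, x 1, …, x t`. -/
def pathProb {K V : Type*} [CommSemiring K] (P : Matrix V V K) (π : V → K) {t : ℕ}
    (x : Fin (t + 1) → V) : K :=
  π (x 0) * ∏ r : Fin t, P (x r.castSucc) (x r.succ)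

/-- `ℙ_π(|R(t)| ≥ y)`: the probability that a stationary chain visits at least `y` states by
time `t`. -/
noncomputable def rangeProb {V : Type*} [Fintype V] [DecidableEq V] (P : Matrix V V ℝ) (π : V → ℝ)
    (t : ℕ) (y : ℝ) : ℝ :=
  ∑ x : Fin (t + 1) → V,
    if y ≤ ((Finset.univ.image x).card : ℝ) then pathProb P π x else 0

/-- `ℙ_{π^k}(|⋃ R_i(t_i)| ≥ y)` for `k` independent stationary chains. -/
noncomputable def unionProb {V : Type*} [Fintype V] [DecidableEq V] (P : Matrix V V ℝ) (π : V → ℝ)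
    {k : ℕ} (t : Fin k → ℕ) (y : ℝ) : ℝ :=
  ∑ x : (i : Fin k) → Fin (t i + 1) → V,
    if y ≤ ((Finset.univ.biUnion fun i => Finset.univ.image (x i)).card : ℝ) then
      ∏ i, pathProb P π (x i) else 0

/-- The statement of the question. -/
def Dominance : Prop :=
  ∀ (n : ℕ) (P : Matrix (Fin n) (Fin n) ℝ) (π : Fin n → ℝ), IsChain P π →
    ∀ (k : ℕ), 1 ≤ k → ∀ t : Fin k → ℕ, (∀ i, 0 < t i) → ∀ y : ℝ, 0 < y →
      rangeProb P π (∑ i, t i) y ≤ unionProb P π t y

end Pool.Agent.Q296.Ranges
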