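import Pool.Agent.Q296.Ranges.Defs

/-!
# A counterexample with four states
-/

set_option autoImplicit false
set_option maxRecDepth 100000

namespace Pool.Agent.Q296.Ranges

open scoped BigOperators

/-- The transition matrix (rational entries). -/
def PQ : Matrix (Fin 4) (Fin 4) ℚ :=
  !![0, 1 / 3, 0, 2 / 3;
     1 / 2, 0, 1 / 2, 0;
     0, 1 / 3, 0, 2 / 3;
     1 / 102, 0, 1 / 102, 50 / 51]

/-- The stationary distribution (rational entries). -/
def piQ : Fin 4 → ℚ := ![3 / 212, 2 / 212, 3 / 212, 204 / 212]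

/-- The transition matrix. -/
noncomputable def PR : Matrix (Fin 4) (Fin 4) ℝ := PQ.map (Rat.cast : ℚ → ℝ)

/-- The stationary distribution. -/
noncomputable def piR (x : Fin 4) : ℝ := (piQ x : ℝ)

lemma PR_pow (n : ℕ) (x y : Fin 4) : (PR ^ n) x y = ((PQ ^ n) x y : ℝ) := by
  have h : PR = (Rat.castHom ℝ).mapMatrix PQ := rfl
  rw [h, ← map_pow]
  rfl

lemma PR_pow_pos {n : ℕ} {x y : Fin 4} (h : 0 < (PQ ^ n) x y) : 0 < (PR ^ n) x y := by
  rw [PR_pow]
  exact_mod_cast h

theorem isChain : IsChain PR piR where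
  nonneg x y := by
    have : ∀ p : Fin 4 × Fin 4, (0 : ℚ) ≤ PQ p.1 p.2 := by decide +kernel
    have := this (x, y)
    unfold PR
    rw [Matrix.map_apply]
    exact_mod_cast this
  row_sum x := by
    have : ∀ x, ∑ y, PQ x y = 1 := by decide +kernel
    have := this x
    unfold PR
    simp only [Matrix.map_apply]
    rw [← Rat.cast_sum, this, Rat.cast_one]
  pi_pos x := by
    have : ∀ x, 0 < piQ x := by decide +kernel
    have := this x
    unfold piR
    exact_mod_cast this
  pi_sum := by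
    have : ∑ x, piQ x = 1 := by decide +kernel
    unfold piR
    rw [← Rat.cast_sum, this, Rat.cast_one]
  reversible x y := by
    have : ∀ x y, piQ x * PQ x y = piQ y * PQ y x := by decide +kernel
    have := this x y
    unfold piR PR
    simp only [Matrix.map_apply]
    exact_mod_cast this
  irreducible x y := by
    have : ∀ p : Fin 4 × Fin 4, (0 : ℚ) < (PQ ^ 4) p.1 p.2 := by decide +kernel
    exact ⟨4, PR_pow_pos (this (x, y))⟩
  aperiodic x d h := by
    have h4 : ∀ x : Fin 4, (0 : ℚ) < (PQ ^ 4) x x := by decide +kernel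
    have h5 : ∀ x : Fin 4, (0 : ℚ) < (PQ ^ 5) x x := by decide +kernel
    have d4 := h 4 (by norm_num) (PR_pow_pos (h4 x))
    have d5 := h 5 (by norm_num) (PR_pow_pos (h5 x))
    have : d ∣ 5 - 4 := Nat.dvd_sub d5 d4
    exact Nat.dvd_one.1 (by simpa using this)

lemma pathProb_cast {t : ℕ} (x : Fin (t + 1) → Fin 4) :
    pathProb PR piR x = ((pathProb PQ piQ x : ℚ) : ℝ) := by
  unfold pathProb
  rw [Rat.cast_mul, Rat.cast_prod]
  rfl

/-- the single walk -/
def rhsQ : ℚ := ∑ x : Fin 4 → Fin 4,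
  if 4 ≤ (Finset.univ.image x).card then pathProb (t := 3) PQ piQ x else 0

/-- the two walks -/
def lhsQ : ℚ := ∑ x : (Fin 2 → Fin 4) × (Fin 3 → Fin 4),
  if 4 ≤ (Finset.univ.image x.1 ∪ Finset.univ.image x.2).card then
    pathProb (t := 1) PQ piQ x.1 * pathProb (t := 2) PQ piQ x.2 else 0

lemma rhsQ_eq : rhsQ = 52 / 8109 := by decide +kernel

lemma lhsQ_eq : lhsQ = 803 / 143259 := by decide +kernel

lemma range_eq : rangeProb PR piR 3 4 = ((52 / 8109 : ℚ) : ℝ) := by
  rw [← rhsQ_eq]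
  unfold rangeProb rhsQ
  rw [Rat.cast_sum]
  refine Finset.sum_congr rfl fun x _ => ?_
  have h : (4 : ℝ) ≤ ((Finset.univ.image x).card : ℝ) ↔ 4 ≤ (Finset.univ.image x).card := by
    exact_mod_cast Iff.rfl
  by_cases h4 : 4 ≤ (Finset.univ.image x).card
  · rw [if_pos h4, if_pos (h.2 h4), pathProb_cast]
  · rw [if_neg h4, if_neg (fun h' => h4 (h.1 h')), Rat.cast_zero]

/-- the two times -/
def tt : Fin 2 → ℕ := ![1, 2]

lemma union_eq : unionProb PR piR tt 4 = ((803 / 143259 : ℚ) : ℝ) := by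
  rw [← lhsQ_eq]
  unfold unionProb lhsQ
  rw [Rat.cast_sum]
  refine Fintype.sum_equiv (piFinTwoEquiv fun i => Fin (tt i + 1) → Fin 4) _ _ fun x => ?_
  have hbi : (Finset.univ.biUnion fun i : Fin 2 => Finset.univ.image (x i)) =
      Finset.univ.image (x 0) ∪ Finset.univ.image (x 1) := by
    ext v
    simp [Fin.exists_fin_two]
  rw [hbi, Fin.prod_univ_two]
  have h : (4 : ℝ) ≤ ((Finset.univ.image (x 0) ∪ Finset.univ.image (x 1)).card : ℝ) ↔
      4 ≤ (Finset.univ.image (x 0) ∪ Finset.univ.image (x 1)).card := by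
    exact_mod_cast Iff.rfl
  have e1 : (piFinTwoEquiv fun i => Fin (tt i + 1) → Fin 4) x = (x 0, x 1) := rfl
  rw [e1]
  by_cases h4 : 4 ≤ (Finset.univ.image (x 0) ∪ Finset.univ.image (x 1)).card
  · rw [if_pos (h.2 h4), pathProb_cast, pathProb_cast, ← Rat.cast_mul]
    congr 1
    exact (if_pos h4).symm
  · rw [if_neg (fun h' => h4 (h.1 h'))]
    have : (if 4 ≤ (Finset.univ.image (x 0, x 1).1 ∪ Finset.univ.image (x 0, x 1).2).card then
      pathProb (t := 1) PQ piQ (x 0, x 1).1 * pathProb (t := 2) PQ piQ (x 0, x 1).2 else 0) =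
        (0 : ℚ) := if_neg h4
    exact (by rw [← Rat.cast_zero]; exact congrArg _ this.symm)

theorem fails : unionProb PR piR tt 4 < rangeProb PR piR (∑ i, tt i) 4 := by
  have hs : ∑ i, tt i = 3 := by decide
  rw [hs, range_eq, union_eq]
  exact_mod_cast (by norm_num : (803 / 143259 : ℚ) < 52 / 8109)

theorem not_dominance : ¬ Dominance := by
  intro h
  have := h 4 PR piR isChain 2 (by norm_num) tt (by decide) 4 (by norm_num)
  exact absurd fails (not_lt.2 this)

end Pool.Agent.Q296.Ranges
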